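import Pool.Agent.H31.BOU.Targets1
import Pool.Agent.H31.BOU.Targets2

/-!
# Double recurrence, row NF: the main estimate at a good node
-/

set_option autoImplicit false

namespace Pool.Agent.H86.BOU
open Finset Pool.Agent.H31.BOU

theorem nd_add (x y : ℝ) : nd (x + y) ≤ nd x + nd y := by
  unfold nd
  refine (round_le (x + y) (round x + round y)).trans ?_
  have h : x + y - ((round x + round y : ℤ) : ℝ) = (x - round x) + (y - round y) := by
    push_cast
    ring
  rw [h]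
  exact abs_add_le _ _

theorem nd_neg_le (x : ℝ) : nd (-x) ≤ nd x := by
  unfold nd
  refine (round_le (-x) (-round x)).trans ?_
  have h : -x - ((-round x : ℤ) : ℝ) = -(x - round x) := by
    push_cast
    ring
  rw [h, abs_neg]

theorem nd_sub_comm (x y : ℝ) : nd (x - y) = nd (y - x) := by
  apply le_antisymm
  · rw [← neg_sub y x]
    exact nd_neg_le _
  · rw [← neg_sub x y]
    exact nd_neg_le _

theorem nd_nonneg (x : ℝ) : 0 ≤ nd x := abs_nonneg _

theorem ee_add (x y : ℝ) : ee (x + y) = ee x * ee y := by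
  unfold ee
  rw [← Complex.exp_add]
  congr 1
  push_cast
  ring

theorem norm_ee (x : ℝ) : ‖ee x‖ = 1 := by
  unfold ee
  exact Complex.norm_exp_ofReal_mul_I _

/-- The Fourier transform of the localised `P.str j`. -/
theorem ft_th {ι : Type} [Fintype ι] (T : ℕ) (P : Fam ι) (j : ℕ) (κ : ℤ) (W : Finset ℤ)
    (β : ℝ) :
    ft W (th T (P.str j) j κ) β = ∑ i, if j ≤ P.sc i then
      P.co i * ft (W ∩ blk (P.sc i) (P.mm i))
        (fun v => (chi j ((κ - 4) * 2 ^ j) ((κ + T + 7) * 2 ^ j) v : ℂ)) (β - P.be i) else 0 := by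
  classical
  unfold ft th Fam.str
  have h1 : ∀ v ∈ W, (chi j ((κ - 4) * 2 ^ j) ((κ + T + 7) * 2 ^ j) v : ℂ) *
      (∑ i, if j ≤ P.sc i ∧ v ∈ blk (P.sc i) (P.mm i) then P.co i * ee (P.be i * (v : ℝ)) else 0) *
      ee (-(β * (v : ℝ))) = ∑ i, (if j ≤ P.sc i ∧ v ∈ blk (P.sc i) (P.mm i) then
        P.co i * ((chi j ((κ - 4) * 2 ^ j) ((κ + T + 7) * 2 ^ j) v : ℂ) *
          ee (-((β - P.be i) * (v : ℝ)))) else 0) := by
    intro v _
    rw [Finset.mul_sum, Finset.sum_mul]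
    refine Finset.sum_congr rfl fun i _ => ?_
    by_cases h : j ≤ P.sc i ∧ v ∈ blk (P.sc i) (P.mm i)
    · rw [if_pos h, if_pos h]
      have : -((β - P.be i) * (v : ℝ)) = P.be i * (v : ℝ) + -(β * (v : ℝ)) := by ring
      rw [this, ee_add]
      ring
    · rw [if_neg h, if_neg h]
      ring
  rw [Finset.sum_congr rfl h1, Finset.sum_comm]
  refine Finset.sum_congr rfl fun i _ => ?_
  by_cases h : j ≤ P.sc i
  · rw [if_pos h, Finset.mul_sum, ← Finset.sum_ite_mem]
    refine Finset.sum_congr rfl fun v _ => ?_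
    by_cases hv : v ∈ blk (P.sc i) (P.mm i)
    · rw [if_pos ⟨h, hv⟩, if_pos hv]
    · rw [if_neg (fun hh => hv hh.2), if_neg hv]
  · rw [if_neg h]
    exact Finset.sum_eq_zero fun v _ => if_neg (fun hh => h hh.1)

/-- The average of a single exponential. -/
theorem dd_exp (G : ℤ → ℂ) (β : ℝ) (j : ℕ) (κ : ℤ) (t : ℕ) (k : ℤ) :
    DD (fun v => ee (β * (v : ℝ))) G j κ t k = ee (2 * β * (k : ℝ)) * ph G β j (κ - t) := by
  unfold DD ph
  rw [← mul_div_assoc, Finset.mul_sum]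
  congr 1
  refine Finset.sum_congr rfl fun a _ => ?_
  rw [Finset.mul_sum]
  refine Finset.sum_congr rfl fun b _ => ?_
  have h : β * ((2 * k - ((κ - t) * 2 ^ j + a + b) : ℤ) : ℝ) = 2 * β * (k : ℝ) +
      -(β * (((κ - t) * 2 ^ j + a + b : ℤ) : ℝ)) := by
    push_cast
    ring
  beta_reduce
  rw [h, ee_add]
  ring

theorem norm_part (S : Finset ℕ) (Γ A E : ℕ → ℂ) (p : ℕ) (hE : ∀ b, ‖E b‖ = 1) :
    ‖(∑ b ∈ S, Γ b * A b * E b) / (p : ℂ)‖ ≤ (∑ b ∈ S, ‖Γ b‖ * ‖A b‖) / (p : ℝ) := by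
  rw [norm_div, Complex.norm_natCast]
  apply div_le_div_of_nonneg_right _ (Nat.cast_nonneg _)
  refine (norm_sum_le _ _).trans (le_of_eq ?_)
  refine Finset.sum_congr rfl fun b _ => ?_
  rw [norm_mul, norm_mul, hE, mul_one]

/-- the numerical bound for the long pieces -/
theorem num_bound (e j : ℕ) (q : ℝ) (he : 1 ≤ e) (hq : 1 ≤ q) :
    (2 / (q ^ 40 / (2 * 2 ^ j)) ^ 2 + 2 * ((e * 2 ^ j : ℕ) : ℝ) / (q ^ 40 / (2 * 2 ^ j))) /
      (4 * 2 ^ j * ((e * 2 ^ j : ℕ) : ℝ)) ≤ 3 / q ^ 40 := by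
  have he' : (1 : ℝ) ≤ e := by exact_mod_cast he
  have hq0 : 0 < q := by linarith
  have h1 : (2 / (q ^ 40 / (2 * 2 ^ j)) ^ 2 + 2 * ((e * 2 ^ j : ℕ) : ℝ) / (q ^ 40 / (2 * 2 ^ j))) /
      (4 * 2 ^ j * ((e * 2 ^ j : ℕ) : ℝ)) = 2 / ((e : ℝ) * q ^ 80) + 1 / q ^ 40 := by
    push_cast
    field_simp
    ring
  rw [h1]
  have h2 : 2 / ((e : ℝ) * q ^ 80) ≤ 2 / q ^ 40 := by
    apply div_le_div_of_nonneg_left (by norm_num) (by positivity)
    have h3 : q ^ 40 ≤ q ^ 80 := pow_le_pow_right₀ hq (by norm_num)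
    have h4 : (0 : ℝ) ≤ q ^ 80 := by positivity
    nlinarith
  have h3 : 3 / q ^ 40 = 2 / q ^ 40 + 1 / q ^ 40 := by ring
  rw [h3]
  linarith

/-- the window and the trapezoid -/
theorem sub_win (T : ℕ) (j : ℕ) (κ : ℤ) :
    Ico ((κ - 4) * 2 ^ j) ((κ + T + 7) * 2 ^ j + 2 ^ j) ⊆ win (rr T) j κ := by
  unfold win rr
  apply Ico_subset_Ico
  · have h : (0 : ℤ) ≤ 2 ^ j := by positivity
    push_cast
    nlinarith [mul_nonneg (by positivity : (0 : ℤ) ≤ 2 * (T : ℤ) + 12) h]
  · have h : (0 : ℤ) ≤ 2 ^ j := by positivity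
    push_cast
    nlinarith [mul_nonneg (by positivity : (0 : ℤ) ≤ (T : ℤ) + 8) h]

theorem inter_long (r i : ℕ) (m : ℤ) (j : ℕ) (κ : ℤ) (h : long r i m j κ) :
    win r j κ ∩ blk i m = win r j κ := by
  rw [Finset.inter_eq_left]
  unfold win blk
  apply Ico_subset_Ico h.1
  have h2 := h.2
  push_cast
  nlinarith

theorem inter_not_meets (r i : ℕ) (m : ℤ) (j : ℕ) (κ : ℤ) (hj : j ≤ i)
    (h : ¬ meets r i m j κ) : win r j κ ∩ blk i m = ∅ := by
  rw [Finset.eq_empty_iff_forall_notMem]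
  intro v hv
  rw [Finset.mem_inter] at hv
  unfold win blk at hv
  obtain ⟨h1, h2⟩ := hv
  rw [Finset.mem_Ico] at h1 h2
  apply h
  refine ⟨hj, ?_, ?_⟩
  · have h3 := h1.2
    push_cast at h3
    nlinarith [h2.1]
  · linarith [h1.1, h2.2]

open Classical in
/-- the sum of the coefficients of the near pieces -/
theorem near_sum {ι θ : Type} [Fintype ι] [Fintype θ] (c : ℕ) (q : ℝ) (Q : Fam θ) (P : Fam ι)
    (j : ℕ) (κ : ℤ) (hq : 1 ≤ q) (hg : Good c q Q P j κ) :
    ∑ i, (if near c (P.sc i) (P.mm i) j κ then ‖P.co i‖ else 0) ≤ q ^ 33 := by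
  rw [← Finset.sum_filter]
  set s := univ.filter (fun i => near c (P.sc i) (P.mm i) j κ) with hs
  have h1 : (∑ i ∈ s, ‖P.co i‖) ^ 2 ≤ (s.card : ℝ) * ∑ i ∈ s, ‖P.co i‖ ^ 2 :=
    sq_sum_le_card_mul_sum_sq
  have h2 : (s.card : ℝ) ≤ q ^ 65 := hg.fn
  have h3 : ∑ i ∈ s, ‖P.co i‖ ^ 2 ≤ q := hg.fd
  have h4 : (s.card : ℝ) * ∑ i ∈ s, ‖P.co i‖ ^ 2 ≤ q ^ 65 * q :=
    mul_le_mul h2 h3 (Finset.sum_nonneg fun i _ => sq_nonneg _) (by positivity)
  have h5 : (∑ i ∈ s, ‖P.co i‖) ^ 2 ≤ (q ^ 33) ^ 2 := by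
    calc _ ≤ q ^ 65 * q := h1.trans h4
      _ = (q ^ 33) ^ 2 := by ring
  exact le_of_sq_le_sq h5 (by positivity)

theorem pf_NF (hR : T_RHO) (hS : T_SIG) (hD : T_DDC) (hF : T_FTG) (hA : T_DFA) (hN : T_NFN)
    (hL : T_NFL) (hT : T_NFT) (hX : T_CHI) (hM : T_MON) : T_NF := by
  intro T
  obtain ⟨CR, hCR, HR⟩ := hR (rr T)
  obtain ⟨CS, hCS, HS⟩ := hS (rr T)
  obtain ⟨CN, hCN, HN⟩ := hN (2 * rr T + 4)
  obtain ⟨CT, hCT, HT⟩ := hT (2 * rr T + 4)
  refine ⟨CN * CR + 3 + CT * (1 + CS), by positivity, ?_⟩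
  intro ι θ _ _ J q G Q P hyp j κ t k hj ht hk1 hk2 hgood
  classical
  have hq : 1 ≤ q := hyp.q1
  have hq0 : 0 < q := by linarith
  have hrc : rr T + 2 ≤ cc T := by unfold rr cc; omega
  have hr2 : 2 ≤ rr T := by unfold rr; omega
  have hrT : T ≤ rr T := by unfold rr; omega
  set e : ℕ := 2 * rr T + 4 with he
  have he1 : 1 ≤ e := by omega
  set p : ℕ := e * 2 ^ j with hp
  have hp0 : 0 < p := by positivity
  have hpR : (0 : ℝ) < p := by exact_mod_cast hp0
  set W : Finset ℤ := win (rr T) j κ with hW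
  set Γ : ℕ → ℂ := fun b => ft W (gm G j κ t) ((b : ℝ) / p) with hΓ
  set E : ℕ → ℂ := fun b => ee (2 * (k : ℝ) * ((b : ℝ) / p)) with hE
  have hE1 : ∀ b, ‖E b‖ = 1 := fun b => norm_ee _
  have hlohi : (κ - 4) * 2 ^ j ≤ (κ + T + 7) * 2 ^ j := by
    have h : (0 : ℤ) ≤ 2 ^ j := by positivity
    nlinarith [mul_nonneg (by positivity : (0 : ℤ) ≤ (T : ℤ) + 11) h]
  set χ : ℤ → ℂ := fun v => (chi j ((κ - 4) * 2 ^ j) ((κ + T + 7) * 2 ^ j) v : ℂ) with hχ
  obtain ⟨hX1, -, -, -⟩ := hX j ((κ - 4) * 2 ^ j) ((κ + T + 7) * 2 ^ j) hlohi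
  obtain ⟨hF1, hF2, hF3⟩ := hF T G j κ t ht hyp.G1
  -- the convolution
  have hconv : ∀ F : ℤ → ℂ, DD F G j κ t k =
      (∑ b ∈ range p, Γ b * ft W (th T F j κ) ((b : ℝ) / p) * E b) / (p : ℂ) := by
    intro F
    rw [hD T F G j κ t k ht hk1 hk2]
    have h2j : (0 : ℤ) ≤ 2 ^ j := by positivity
    refine hA p (2 * rr T * 2 ^ j) ((κ - rr T) * 2 ^ j) k (gm G j κ t) (th T F j κ) hp0 ?_ ?_
    · rw [hp, he]
      push_cast
      nlinarith
    · rw [hp, he]
      push_cast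
      nlinarith [mul_nonneg (by positivity : (0 : ℤ) ≤ 2 * (rr T : ℤ)) h2j]
  -- the frequencies of `Q`
  set Z : Finset ℝ := (univ.filter (fun u => near (cc T) (Q.sc u) (Q.mm u) j κ)).image Q.be
    with hZ
  have hZc : (Z.card : ℝ) ≤ q ^ 17 := by
    refine le_trans ?_ hgood.gn
    exact_mod_cast Finset.card_image_le
  set Yp : ℕ → Prop := fun b => ∃ ζ ∈ Z, nd ((b : ℝ) / p - ζ) ≤ q ^ 40 / 2 ^ j with hYp
  set Y : Finset ℕ := (range p).filter Yp with hY
  set Yc : Finset ℕ := (range p).filter (fun b => ¬ Yp b) with hYc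
  have hYdef : ∀ b ∈ Y, ∃ u, near (cc T) (Q.sc u) (Q.mm u) j κ ∧
      nd ((b : ℝ) / p - Q.be u) ≤ q ^ 40 / 2 ^ j := by
    intro b hb
    rw [hY, Finset.mem_filter] at hb
    obtain ⟨ζ, hζ, h⟩ := hb.2
    rw [hZ, Finset.mem_image] at hζ
    obtain ⟨u, hu, rfl⟩ := hζ
    exact ⟨u, (Finset.mem_filter.1 hu).2, h⟩
  have hYcdef : ∀ b ∈ Yc, ∀ u, near (cc T) (Q.sc u) (Q.mm u) j κ →
      q ^ 40 / 2 ^ j < nd ((b : ℝ) / p - Q.be u) := by
    intro b hb u hu
    rw [hYc, Finset.mem_filter] at hb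
    by_contra hcon
    push Not at hcon
    exact hb.2 ⟨Q.be u, Finset.mem_image.2 ⟨u, Finset.mem_filter.2 ⟨Finset.mem_univ _, hu⟩, rfl⟩,
      hcon⟩
  -- the piece sums
  set A : ι → ℕ → ℂ := fun i b => ft (W ∩ blk (P.sc i) (P.mm i)) χ ((b : ℝ) / p - P.be i) with hAd
  set SX : ι → Finset ℕ → ℂ := fun i S => (∑ b ∈ S, Γ b * A i b * E b) / (p : ℂ) with hSX
  have hΘ : ∀ b : ℕ, ft W (th T (P.str j) j κ) ((b : ℝ) / p) =
      ∑ i, if j ≤ P.sc i then P.co i * A i b else 0 := fun b => ft_th T P j κ W _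
  have hsplit : DD (P.str j) G j κ t k =
      (∑ b ∈ Y, Γ b * ft W (th T (P.str j) j κ) ((b : ℝ) / p) * E b) / (p : ℂ) +
        ∑ i, (if j ≤ P.sc i then P.co i * SX i Yc else 0) := by
    rw [hconv, ← Finset.sum_filter_add_sum_filter_not (range p) Yp, add_div]
    congr 1
    rw [← hYc]
    have h1 : ∀ b ∈ Yc, Γ b * ft W (th T (P.str j) j κ) ((b : ℝ) / p) * E b =
        ∑ i, (if j ≤ P.sc i then P.co i * (Γ b * A i b * E b) else 0) := by
      intro b _
      rw [hΘ, Finset.mul_sum, Finset.sum_mul]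
      refine Finset.sum_congr rfl fun i _ => ?_
      split_ifs
      · ring
      · ring
    rw [Finset.sum_congr rfl h1, Finset.sum_comm, Finset.sum_div]
    refine Finset.sum_congr rfl fun i _ => ?_
    by_cases h : j ≤ P.sc i
    · simp only [if_pos h, hSX]
      rw [← Finset.mul_sum, mul_div_assoc]
    · simp only [if_neg h, Finset.sum_const_zero, zero_div]
  -- part Y
  have hpartY : ‖(∑ b ∈ Y, Γ b * ft W (th T (P.str j) j κ) ((b : ℝ) / p) * E b) / (p : ℂ)‖ ≤
      CN * CR / q := by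
    refine (norm_part Y Γ (fun b => ft W (th T (P.str j) j κ) ((b : ℝ) / p)) E p hE1).trans ?_
    have hrho : ∀ β, ‖ft W (th T (P.str j) j κ) β‖ ≤ CR * 2 ^ j / q ^ 31 := by
      intro β
      exact HR ι q P j κ (cc T) (fun v => chi j ((κ - 4) * 2 ^ j) ((κ + T + 7) * 2 ^ j) v) β hq
        hrc (hyp.Pc j hj) hgood.fn hgood.fd (fun v => ⟨by
          rw [abs_of_nonneg (hX1 v).1]; exact (hX1 v).2.1, (hX1 v).2.2⟩)
    exact HN j (2 * rr T * 2 ^ j) ((κ - rr T) * 2 ^ j) (gm G j κ t) (th T (P.str j) j κ) Z q CR hq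
      hCR.le he1 (by rw [he]; gcongr; omega) hZc hrho hF3
  -- outside Y the transform of G is small
  have hsig : ∀ b ∈ Yc, ‖Γ b‖ ≤ CS / q ^ 7 := by
    intro b hb
    have h1 : Γ b = ph G ((b : ℝ) / p) j (κ - t) := hF1 _
    rw [h1]
    have h2j : (0 : ℤ) ≤ 2 ^ j := by positivity
    have h3 : (t : ℤ) ≤ rr T := by exact_mod_cast ht.trans hrT
    have h4 : (2 : ℤ) ≤ rr T := by exact_mod_cast hr2
    refine HS θ q G Q j κ (cc T) hq hyp.G1 hrc (hyp.Qc j hj) hgood.gn hgood.gd ((b : ℝ) / p)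
      (fun u hu => (hYcdef b hb u hu).le) j (κ - t) (Or.inl rfl) ?_ ?_
    · exact mul_le_mul_of_nonneg_right (by linarith) h2j
    · refine mul_le_mul_of_nonneg_right ?_ h2j
      have : (0 : ℤ) ≤ t := by positivity
      linarith
  -- pieces of any kind
  have htbd : ∀ i, ‖SX i Yc‖ ≤ CT * (1 + CS) / q ^ 6 := by
    intro i
    refine (norm_part Yc Γ (A i) E p hE1).trans ?_
    exact HT j (2 * rr T * 2 ^ j) ((κ - rr T) * 2 ^ j) ((κ - 4) * 2 ^ j) ((κ + T + 7) * 2 ^ j)
      (P.mm i * 2 ^ P.sc i) ((P.mm i + 1) * 2 ^ P.sc i) (gm G j κ t) (P.be i) q CS Yc hq hCS.le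
      hlohi he1 (by rw [he]; gcongr; omega) (Finset.filter_subset _ _) hsig hF3
  -- long pieces
  have hlong : ∀ i, long (rr T) (P.sc i) (P.mm i) j κ → ∀ S ⊆ range p,
      (∀ b ∈ S, q ^ 40 / (2 * 2 ^ j) ≤ nd ((b : ℝ) / p - P.be i)) → ‖SX i S‖ ≤ 3 / q ^ 40 := by
    intro i hi S hSp hSb
    refine (norm_part S Γ (A i) E p hE1).trans ?_
    have hint := inter_long _ _ _ _ _ hi
    have h1 : ∀ b, A i b = ft W χ ((b : ℝ) / p - P.be i) := by
      intro b
      simp only [hAd, hW]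
      rw [hint]
    simp only [h1]
    have h2 := hL p j (2 * rr T * 2 ^ j) ((κ - rr T) * 2 ^ j) ((κ - 4) * 2 ^ j)
      ((κ + T + 7) * 2 ^ j) (gm G j κ t) (P.be i) (q ^ 40 / (2 * 2 ^ j)) S hp0 (by positivity)
      hlohi (sub_win T j κ) hSp hSb hF2
    exact h2.trans (num_bound e j q he1 hq)
  -- the full sum of a long piece
  have hfull : ∀ i, long (rr T) (P.sc i) (P.mm i) j κ →
      SX i (range p) = ee (2 * P.be i * (k : ℝ)) * ph G (P.be i) j (κ - t) := by
    intro i hi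
    rw [← dd_exp, hconv]
    simp only [hSX]
    congr 1
    refine Finset.sum_congr rfl fun b _ => ?_
    congr 2
    simp only [hAd, hW]
    rw [inter_long _ _ _ _ _ hi]
    unfold ft th
    refine Finset.sum_congr rfl fun v _ => ?_
    have h3 : -(((b : ℝ) / p - P.be i) * (v : ℝ)) = P.be i * (v : ℝ) + -((b : ℝ) / p * (v : ℝ)) := by
      ring
    rw [h3, ee_add, hχ]
    ring
  -- one piece
  set M : ι → ℂ := fun i => if alive (cc T) (rr T) q Q P i j κ then
    P.co i * ee (2 * P.be i * (k : ℝ)) * ph G (P.be i) j (κ - t) else 0 with hMdef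
  have hMT : MT (cc T) (rr T) q G Q P j κ t k = ∑ i, M i := by
    unfold MT
    exact Finset.sum_congr rfl fun i _ => rfl
  have hone : ∀ i, ‖(if j ≤ P.sc i then P.co i * SX i Yc else 0) - M i‖ ≤
      (if tb (cc T) (rr T) q Q P i j κ then ‖P.co i‖ else 0) * (CT * (1 + CS) / q ^ 6) +
      (if near (cc T) (P.sc i) (P.mm i) j κ then ‖P.co i‖ else 0) * (3 / q ^ 40) := by
    intro i
    have hMON := hM.2.2.1 (rr T) (P.sc i) (P.mm i) j κ (cc T) hr2 hrc
    have hnn : 0 ≤ (if tb (cc T) (rr T) q Q P i j κ then ‖P.co i‖ else 0) *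
        (CT * (1 + CS) / q ^ 6) := by
      apply mul_nonneg
      · split_ifs
        · exact norm_nonneg _
        · exact le_rfl
      · positivity
    have hnn2 : 0 ≤ (if near (cc T) (P.sc i) (P.mm i) j κ then ‖P.co i‖ else 0) *
        (3 / q ^ 40) := by
      apply mul_nonneg
      · split_ifs
        · exact norm_nonneg _
        · exact le_rfl
      · positivity
    by_cases hmeet : meets (rr T) (P.sc i) (P.mm i) j κ
    swap
    · -- the window does not meet the block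
      have hnl : ¬ long (rr T) (P.sc i) (P.mm i) j κ := fun h => hmeet (hMON.1 h).2
      have hna : ¬ alive (cc T) (rr T) q Q P i j κ := fun h => hnl h.1
      have hM0 : M i = 0 := by
        simp only [hMdef]
        rw [if_neg hna]
      have h0 : (if j ≤ P.sc i then P.co i * SX i Yc else 0) = 0 := by
        by_cases hji : j ≤ P.sc i
        · rw [if_pos hji]
          have hint := inter_not_meets _ _ _ _ _ hji hmeet
          have hA0 : ∀ b, A i b = 0 := by
            intro b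
            simp only [hAd, hW]
            rw [hint]
            simp [ft]
          simp only [hSX, hA0]
          simp
        · rw [if_neg hji]
      rw [h0, hM0, sub_zero, norm_zero]
      exact add_nonneg hnn hnn2
    have hji : j ≤ P.sc i := hmeet.1
    have hnear : near (cc T) (P.sc i) (P.mm i) j κ := hMON.2 hmeet
    rw [if_pos hji]
    by_cases htb : tb (cc T) (rr T) q Q P i j κ
    · -- transitional or boundary pieces
      have hna : ¬ alive (cc T) (rr T) q Q P i j κ := by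
        rintro ⟨hl, hfar, -⟩
        rcases htb with h | h
        · exact h.2 hl
        · exact h.2.2 hfar
      have hM0 : M i = 0 := by
        simp only [hMdef]
        rw [if_neg hna]
      rw [hM0, sub_zero, norm_mul]
      rw [if_pos htb]
      have h1 := mul_le_mul_of_nonneg_left (htbd i) (norm_nonneg (P.co i))
      linarith
    · have hl : long (rr T) (P.sc i) (P.mm i) j κ := by
        by_contra hcon
        exact htb (Or.inl ⟨hmeet, hcon⟩)
      by_cases hfar : far (cc T) (3 / 2 * q ^ 40) Q (P.be i) j κ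
      · -- alive pieces
        have hal : alive (cc T) (rr T) q Q P i j κ := ⟨hl, hfar, hgood⟩
        have hM1 : M i = P.co i * SX i (range p) := by
          simp only [hMdef]
          rw [if_pos hal, hfull i hl, mul_assoc]
        have hsum : SX i (range p) = SX i Y + SX i Yc := by
          simp only [hSX]
          rw [← add_div, hY, hYc, Finset.sum_filter_add_sum_filter_not]
        have hbd : ‖SX i Y‖ ≤ 3 / q ^ 40 := by
          refine hlong i hl Y (Finset.filter_subset _ _) fun b hb => ?_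
          obtain ⟨u, hu, hub⟩ := hYdef b hb
          have h1 := hfar u hu
          have h2 : nd (P.be i - Q.be u) ≤ nd ((b : ℝ) / p - P.be i) + nd ((b : ℝ) / p - Q.be u) := by
            have h3 := nd_add (P.be i - (b : ℝ) / p) ((b : ℝ) / p - Q.be u)
            rw [sub_add_sub_cancel] at h3
            rw [nd_sub_comm ((b : ℝ) / p) (P.be i)]
            exact h3
          have h4 : q ^ 40 / (2 * 2 ^ j) = 3 / 2 * q ^ 40 / 2 ^ j - q ^ 40 / 2 ^ j := by
            field_simp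
            ring
          rw [h4]
          linarith
        rw [hM1, hsum, ← mul_sub, norm_mul, sub_add_cancel_right, norm_neg]
        rw [if_pos hnear]
        have h1 := mul_le_mul_of_nonneg_left hbd (norm_nonneg (P.co i))
        linarith
      · -- long pieces close to a frequency of `Q`
        have hna : ¬ alive (cc T) (rr T) q Q P i j κ := fun h => hfar h.2.1
        have hM0 : M i = 0 := by
          simp only [hMdef]
          rw [if_neg hna]
        have hnf : ¬ far (cc T) (1 / 2 * q ^ 40) Q (P.be i) j κ := by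
          intro h
          exact htb (Or.inr ⟨hl, h, hfar⟩)
        unfold far at hnf
        push Not at hnf
        obtain ⟨u, hu, hub⟩ := hnf
        have hbd : ‖SX i Yc‖ ≤ 3 / q ^ 40 := by
          refine hlong i hl Yc (Finset.filter_subset _ _) fun b hb => ?_
          have h1 := hYcdef b hb u hu
          have h2 : nd ((b : ℝ) / p - Q.be u) ≤ nd ((b : ℝ) / p - P.be i) + nd (P.be i - Q.be u) := by
            have h3 := nd_add ((b : ℝ) / p - P.be i) (P.be i - Q.be u)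
            rwa [sub_add_sub_cancel] at h3
          have h4 : q ^ 40 / (2 * 2 ^ j) = q ^ 40 / 2 ^ j - 1 / 2 * q ^ 40 / 2 ^ j := by
            field_simp
            ring
          rw [h4]
          linarith
        rw [hM0, sub_zero, norm_mul, if_pos hnear]
        have h1 := mul_le_mul_of_nonneg_left hbd (norm_nonneg (P.co i))
        linarith
  -- the end
  have htbs : tbs (cc T) (rr T) q Q P j κ =
      ∑ i, (if tb (cc T) (rr T) q Q P i j κ then ‖P.co i‖ else 0) := by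
    unfold tbs
    exact Finset.sum_congr rfl fun i _ => rfl
  have htbs0 : 0 ≤ tbs (cc T) (rr T) q Q P j κ := by
    rw [htbs]
    refine Finset.sum_nonneg fun i _ => ?_
    split_ifs
    · exact norm_nonneg _
    · exact le_rfl
  rw [hsplit, hMT, add_sub_assoc, ← Finset.sum_sub_distrib]
  refine (norm_add_le _ _).trans ?_
  have hsum2 : ‖∑ i, ((if j ≤ P.sc i then P.co i * SX i Yc else 0) - M i)‖ ≤
      tbs (cc T) (rr T) q Q P j κ * (CT * (1 + CS) / q ^ 6) + q ^ 33 * (3 / q ^ 40) := by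
    refine (norm_sum_le _ _).trans ((Finset.sum_le_sum fun i _ => hone i).trans ?_)
    rw [Finset.sum_add_distrib, ← Finset.sum_mul, ← Finset.sum_mul, htbs]
    have h1 := near_sum (cc T) q Q P j κ hq hgood
    have h2 : (0 : ℝ) ≤ 3 / q ^ 40 := by positivity
    have h3 := mul_le_mul_of_nonneg_right h1 h2
    linarith
  have h6 : q ^ 33 * (3 / q ^ 40) ≤ 3 / q := by
    have h7 : q ^ 33 * (3 / q ^ 40) = 3 / q ^ 7 := by
      field_simp
    rw [h7]
    apply div_le_div_of_nonneg_left (by norm_num) hq0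
    exact le_self_pow₀ hq (by norm_num)
  have h8 : CN * CR / q + 3 / q ≤ (CN * CR + 3 + CT * (1 + CS)) / q := by
    rw [← add_div]
    apply div_le_div_of_nonneg_right _ hq0.le
    have : 0 ≤ CT * (1 + CS) := by positivity
    linarith
  have h9 : tbs (cc T) (rr T) q Q P j κ * (CT * (1 + CS) / q ^ 6) ≤
      (CN * CR + 3 + CT * (1 + CS)) / q ^ 6 * tbs (cc T) (rr T) q Q P j κ := by
    rw [mul_comm]
    apply mul_le_mul_of_nonneg_right _ htbs0
    apply div_le_div_of_nonneg_right _ (by positivity)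
    have : 0 ≤ CN * CR := by positivity
    linarith
  linarith

end Pool.Agent.H86.BOU
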